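import Pool.Agent.Q227.TP.Defs

/-!
# Combs: a path with one pendant vertex at every vertex
-/

set_option autoImplicit false

namespace Pool.Agent.Q227.TP

open Pool.Agent.H679R2

/-- The edges of the spine. -/
def spineE (K : ℕ) : List (ℕ × ℕ) := (List.range (K - 1)).map fun i => (2 * i, 2 * i + 2)

/-- The comb: the spine consists of the even numbers, and `2 i + 1` is attached to `2 i`. -/
def comb (K : ℕ) : List ℕ × List (ℕ × ℕ) :=
  (List.range (2 * K), spineE K ++ (List.range K).map fun i => (2 * i, 2 * i + 1))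

/-- The parent of a vertex. -/
def par (v : ℕ) : ℕ := if v % 2 = 1 then v - 1 else v - 2

theorem mem_spineE {K : ℕ} {e : ℕ × ℕ} : e ∈ spineE K ↔
    e.1 % 2 = 0 ∧ e.2 = e.1 + 2 ∧ e.2 < 2 * K := by
  obtain ⟨a, b⟩ := e
  simp only [spineE, List.mem_map, List.mem_range, Prod.mk.injEq]
  constructor
  · rintro ⟨i, hi, rfl, rfl⟩
    omega
  · rintro ⟨h1, h2, h3⟩
    exact ⟨a / 2, by omega, by omega, by omega⟩

theorem mem_combE {K : ℕ} {e : ℕ × ℕ} : e ∈ (comb K).2 ↔
    (e.1 % 2 = 0 ∧ e.2 = e.1 + 2 ∧ e.2 < 2 * K) ∨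
      (e.1 % 2 = 0 ∧ e.2 = e.1 + 1 ∧ e.1 < 2 * K) := by
  obtain ⟨a, b⟩ := e
  unfold comb
  simp only [List.mem_append, mem_spineE, List.mem_map, List.mem_range, Prod.mk.injEq]
  constructor
  · rintro (h | ⟨i, hi, rfl, rfl⟩)
    · exact Or.inl h
    · exact Or.inr (by omega)
  · rintro (h | ⟨h1, h2, h3⟩)
    · exact Or.inl h
    · exact Or.inr ⟨a / 2, by omega, by omega, by omega⟩

theorem comb_adj {K : ℕ} {u v : {v : ℕ // v ∈ (comb K).1}} : (toGraph (comb K)).Adj u v ↔
    (0 < v.1 ∧ u.1 = par v.1) ∨ (0 < u.1 ∧ v.1 = par u.1) := by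
  have hu := List.mem_range.1 u.2
  have hv := List.mem_range.1 v.2
  change (u ≠ v ∧ ((u.1, v.1) ∈ (comb K).2 ∨ (v.1, u.1) ∈ (comb K).2)) ↔ _
  rw [mem_combE, mem_combE, Ne, Subtype.ext_iff]
  unfold par
  simp only
  split_ifs <;> omega

theorem comb_reach {K : ℕ} (h0 : 0 ∈ (comb K).1) : ∀ (n : ℕ) (v : {v : ℕ // v ∈ (comb K).1}),
    v.1 = n → (toGraph (comb K)).Reachable ⟨0, h0⟩ v := by
  intro n
  induction n using Nat.strong_induction_on with
  | _ n ih =>
    intro v hv
    by_cases hn : n = 0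
    · have : v = ⟨0, h0⟩ := Subtype.ext (hv.trans hn)
      rw [this]
    · have hvr := List.mem_range.1 v.2
      have hp : par v.1 < v.1 := by
        unfold par
        split_ifs <;> omega
      have hpm : par v.1 ∈ (comb K).1 := List.mem_range.2 (by omega)
      refine (ih (par v.1) (by omega) ⟨par v.1, hpm⟩ rfl).trans (SimpleGraph.Adj.reachable ?_)
      exact comb_adj.2 (Or.inl ⟨by omega, rfl⟩)

theorem comb_isTree {K : ℕ} (hK : 0 < K) : (toGraph (comb K)).IsTree := by
  have h0 : 0 ∈ (comb K).1 := List.mem_range.2 (by omega)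
  have : Fintype {v : ℕ // v ∈ (comb K).1} := Fintype.ofFinite _
  rw [SimpleGraph.isTree_iff_connected_and_card]
  refine ⟨?_, ?_⟩
  · have : Nonempty {v : ℕ // v ∈ (comb K).1} := ⟨⟨0, h0⟩⟩
    refine SimpleGraph.Connected.mk fun u v => ?_
    exact (comb_reach h0 _ u rfl).symm.trans (comb_reach h0 _ v rfl)
  · -- the edges correspond to the vertices different from 0
    have e : {v : {v : ℕ // v ∈ (comb K).1} // v.1 ≠ 0} ≃ (toGraph (comb K)).edgeSet := by
      refine Equiv.ofBijective (fun v => ⟨s(⟨par v.1.1, ?_⟩, v.1), ?_⟩) ⟨?_, ?_⟩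
      · have hvr := List.mem_range.1 v.1.2
        refine List.mem_range.2 ?_
        unfold par
        split_ifs <;> omega
      · rw [SimpleGraph.mem_edgeSet]
        exact comb_adj.2 (Or.inl ⟨Nat.pos_of_ne_zero v.2, rfl⟩)
      · intro u v huv
        have h1 : s((⟨par u.1.1, _⟩ : {v : ℕ // v ∈ (comb K).1}), u.1) =
            s((⟨par v.1.1, _⟩ : {v : ℕ // v ∈ (comb K).1}), v.1) := congrArg Subtype.val huv
        rw [Sym2.eq_iff] at h1
        rcases h1 with h | h
        · exact Subtype.ext h.2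
        · have h2 : par u.1.1 = v.1.1 := congrArg Subtype.val h.1
          have h3 : u.1.1 = par v.1.1 := congrArg Subtype.val h.2
          have hu := Nat.pos_of_ne_zero u.2
          have hv := Nat.pos_of_ne_zero v.2
          unfold par at h2 h3
          split_ifs at h2 h3 <;> omega
      · rintro ⟨e, he⟩
        induction e using Sym2.ind with
        | _ u v =>
          rw [SimpleGraph.mem_edgeSet] at he
          rcases comb_adj.1 he with h | h
          · refine ⟨⟨v, h.1.ne'⟩, Subtype.ext ?_⟩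
            exact Sym2.eq_iff.2 (Or.inl ⟨Subtype.ext h.2.symm, rfl⟩)
          · refine ⟨⟨u, h.1.ne'⟩, Subtype.ext ?_⟩
            exact Sym2.eq_iff.2 (Or.inr ⟨Subtype.ext h.2.symm, rfl⟩)
    rw [← Nat.card_congr e]
    have h1 := Nat.card_congr (Equiv.sumCompl (fun v : {v : ℕ // v ∈ (comb K).1} => v.1 ≠ 0))
    rw [Nat.card_sum] at h1
    have h2 : Nat.card {v : {v : ℕ // v ∈ (comb K).1} // ¬ v.1 ≠ 0} = 1 := by
      rw [Nat.card_eq_one_iff_unique]
      refine ⟨⟨fun a b => ?_⟩, ⟨⟨⟨0, h0⟩, by simp⟩⟩⟩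
      have ha := a.2
      have hb := b.2
      push Not at ha hb
      exact Subtype.ext (Subtype.ext (ha.trans hb.symm))
    rw [h2] at h1
    exact h1

theorem comb_deg {K : ℕ} (v : {v : ℕ // v ∈ (comb K).1}) :
    ((toGraph (comb K)).neighborSet v).ncard ≤ 3 := by
  have h1 : (Subtype.val '' (toGraph (comb K)).neighborSet v) ⊆
      (({par v.1, v.1 + 1, v.1 + 2} : Finset ℕ) : Set ℕ) := by
    rintro _ ⟨u, hu, rfl⟩
    have := comb_adj.1 (show (toGraph (comb K)).Adj v u from hu)
    simp only [Finset.coe_insert, Finset.coe_singleton, Set.mem_insert_iff,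
      Set.mem_singleton_iff]
    unfold par at this ⊢
    split_ifs at this ⊢ <;> omega
  rw [← Set.ncard_image_of_injective _ Subtype.val_injective]
  refine (Set.ncard_le_ncard h1 (Finset.finite_toSet _)).trans ?_
  rw [Set.ncard_coe_finset]
  exact Finset.card_le_three

end Pool.Agent.Q227.TP
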