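import Pool.Agent.H679R2.Oct.Defs

/-!
# Periodic temporal trees and their coverage
-/

set_option autoImplicit false

namespace Pool.Agent.Q227.TP

open Pool.Agent.H679R2

/-- A presented graph, the list of the snapshots (each is the list of the edges present at this
step) and the start vertex. The period is the number of the snapshots. -/
abbrev Inst : Type := (List ℕ × List (ℕ × ℕ)) × List (List (ℕ × ℕ)) × ℕ

/-- The edge `uv` is present at time `τ`. -/
def Present (I : Inst) (τ u v : ℕ) : Prop :=
  (u, v) ∈ I.2.1.getD (τ % I.2.1.length) [] ∨ (v, u) ∈ I.2.1.getD (τ % I.2.1.length) []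

/-- The instance is a periodic temporal tree with a start vertex: the graph is a tree, the period
is positive, the snapshots list edges of the tree, every edge is present at some time, and the
start vertex is a vertex. -/
def IsPeriodicTree (I : Inst) : Prop :=
  (toGraph I.1).IsTree ∧ 0 < I.2.1.length ∧
  (∀ S ∈ I.2.1, ∀ e ∈ S, ∃ (hu : e.1 ∈ I.1.1) (hv : e.2 ∈ I.1.1),
    (toGraph I.1).Adj ⟨e.1, hu⟩ ⟨e.2, hv⟩) ∧
  (∀ u v, (toGraph I.1).Adj u v → ∃ τ, Present I τ u.1 v.1) ∧ I.2.2 ∈ I.1.1

/-- All degrees are at most `d`. -/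
def MaxDegLE (I : Inst) (d : ℕ) : Prop := ∀ v, ((toGraph I.1).neighborSet v).ncard ≤ d

/-- The agent can cover all vertices by time `t`: `pos τ` is its vertex at time `τ`; in every step
it waits or crosses an edge which is present at this time. -/
def CoveredBy (I : Inst) (t : ℕ) : Prop :=
  ∃ pos : ℕ → {v : ℕ // v ∈ I.1.1}, (pos 0).1 = I.2.2 ∧
    (∀ τ < t, pos (τ + 1) = pos τ ∨ ((toGraph I.1).Adj (pos τ) (pos (τ + 1)) ∧
      Present I τ (pos τ).1 (pos (τ + 1)).1)) ∧
    ∀ v, ∃ τ ≤ t, pos τ = v

/-- `T` is the cover time, the least `t` such that the agent can cover all vertices by time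
`t`. -/
def IsCoverTime (I : Inst) (T : ℕ) : Prop := IsLeast {t | CoveredBy I t} T

theorem CoveredBy.mono {I : Inst} {t t' : ℕ} (h : CoveredBy I t) (htt : t ≤ t') :
    CoveredBy I t' := by
  obtain ⟨pos, h0, h1, h2⟩ := h
  refine ⟨fun τ => pos (min τ t), by simpa using h0, ?_, ?_⟩
  · intro τ _
    by_cases hτ : τ < t
    · have e1 : min (τ + 1) t = τ + 1 := by omega
      have e2 : min τ t = τ := by omega
      simp only [e1, e2]
      exact h1 τ hτ
    · have e1 : min (τ + 1) t = t := by omega
      have e2 : min τ t = t := by omega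
      exact Or.inl (by simp only [e1, e2])
  · intro v
    obtain ⟨τ, hτ, hv⟩ := h2 v
    refine ⟨τ, hτ.trans htt, ?_⟩
    have e2 : min τ t = τ := by omega
    simp only [e2]
    exact hv

end Pool.Agent.Q227.TP
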