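import Pool.Agent.Q227.TP.Sched
import Pool.Agent.Q227.Oracle
import Pool.Agent.H671R2.PolyAuto

/-!
# Coverage of periodic temporal combs: the instances
-/

set_option autoImplicit false

namespace Pool.Agent.Q227.TP

open Pool.Agent.NPC Pool.Agent.H679R2 Pool.Agent.Q227.TF Pool.Agent.Q227.SI

/-- The period. -/
def per (φ : F3) : ℕ := 6 * φ.length * (φ.length + 3) * (10 * φ.length + 3)

/-- A snapshot. -/
def snap (φ : F3) (τ : ℕ) : List (ℕ × ℕ) :=
  spineE (10 * φ.length) ++ ((List.range (10 * φ.length)).filter fun i => leafB φ τ i).map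
    fun i => (2 * i, 2 * i + 1)

/-- The instance. -/
def inst (φ : F3) : Inst :=
  (comb (10 * φ.length), (List.range (per φ)).map (snap φ), 0)

theorem per_eq (φ : F3) : (inst φ).2.1.length = per φ := by
  unfold inst
  rw [List.length_map, List.length_range]

theorem mem_snap {φ : F3} {τ : ℕ} {e : ℕ × ℕ} : e ∈ snap φ τ ↔
    (e.1 % 2 = 0 ∧ e.2 = e.1 + 2 ∧ e.2 < 2 * (10 * φ.length)) ∨
      ∃ i < 10 * φ.length, leafB φ τ i = true ∧ e = (2 * i, 2 * i + 1) := by
  unfold snap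
  rw [List.mem_append, mem_spineE]
  simp only [List.mem_map, List.mem_filter, List.mem_range]
  constructor
  · rintro (h | ⟨i, ⟨h1, h2⟩, rfl⟩)
    · exact Or.inl h
    · exact Or.inr ⟨i, h1, h2, rfl⟩
  · rintro (h | ⟨i, h1, h2, rfl⟩)
    · exact Or.inl h
    · exact Or.inr ⟨i, ⟨h1, h2⟩, rfl⟩

theorem present_iff {φ : F3} {τ : ℕ} (hτ : τ < per φ) (u v : ℕ) :
    Present (inst φ) τ u v ↔ (u, v) ∈ snap φ τ ∨ (v, u) ∈ snap φ τ := by
  have h : (inst φ).2.1.getD (τ % (inst φ).2.1.length) [] = snap φ τ := by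
    rw [per_eq, Nat.mod_eq_of_lt hτ]
    unfold inst
    rw [List.getD_eq_getElem _ _ (by rw [List.length_map, List.length_range]; exact hτ)]
    simp
  unfold Present
  rw [h]

theorem TT_lt {φ : F3} (hne : φ ≠ []) : TT φ < per φ := by
  have hm0 : 0 < φ.length := List.length_pos_iff.2 hne
  have hM : 0 < 6 * φ.length * (φ.length + 3) := by positivity
  unfold TT per
  obtain ⟨M, hM'⟩ : ∃ M, 6 * φ.length * (φ.length + 3) = M + 1 :=
    ⟨6 * φ.length * (φ.length + 3) - 1, by omega⟩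
  rw [hM', Nat.add_sub_cancel, Nat.add_mul, Nat.one_mul]
  omega

theorem comb_lt {K : ℕ} (v : {v : ℕ // v ∈ (comb K).1}) : v.1 < 2 * K := List.mem_range.1 v.2

theorem coveredBy_iff {φ : F3} (hne : φ ≠ []) : CoveredBy (inst φ) (TT φ) ↔ CovN φ := by
  have hm0 : 0 < φ.length := List.length_pos_iff.2 hne
  have hTP := TT_lt hne
  constructor
  · rintro ⟨pos, h0, h1, h2⟩
    refine ⟨fun τ => (pos τ).1, fun τ _ => comb_lt (pos τ), h0, fun τ hτ => ?_, fun v hv => ?_⟩
    · rcases h1 τ hτ with h | ⟨_, h⟩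
      · left
        exact congrArg Subtype.val h
      · right
        rw [present_iff (hτ.trans hTP), mem_snap, mem_snap] at h
        rcases h with (h | ⟨i, _, h3, h4⟩) | (h | ⟨i, _, h3, h4⟩)
        · exact Or.inl ⟨h.1, h.2.1⟩
        · exact Or.inr (Or.inr (Or.inl ⟨i, (Prod.mk.inj h4).1, (Prod.mk.inj h4).2, h3⟩))
        · exact Or.inr (Or.inl ⟨h.1, h.2.1⟩)
        · exact Or.inr (Or.inr (Or.inr ⟨i, (Prod.mk.inj h4).2, (Prod.mk.inj h4).1, h3⟩))
    · obtain ⟨τ, hτ, h3⟩ := h2 ⟨v, List.mem_range.2 hv⟩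
      exact ⟨τ, hτ, congrArg Subtype.val h3⟩
  · rintro ⟨pos, hlt, h0, h1, h2⟩
    have hmem : ∀ n, n < 2 * (10 * φ.length) → n ∈ (inst φ).1.1 := fun n hn => List.mem_range.2 hn
    set q : ℕ → {v : ℕ // v ∈ (inst φ).1.1} := fun τ =>
      if h : pos τ < 2 * (10 * φ.length) then ⟨pos τ, hmem _ h⟩ else ⟨0, hmem _ (by omega)⟩
      with hq
    have hqv : ∀ τ ≤ TT φ, (q τ).1 = pos τ := by
      intro τ hτ
      rw [hq]
      simp only
      rw [dif_pos (hlt τ hτ)]
    refine ⟨q, by rw [hqv 0 (Nat.zero_le _), h0]; rfl, fun τ hτ => ?_, fun v => ?_⟩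
    · have e1 := hqv τ hτ.le
      have e2 := hqv (τ + 1) hτ
      have b1 := hlt τ hτ.le
      have b2 := hlt (τ + 1) hτ
      rcases h1 τ hτ with h | h | h | ⟨i, h3, h4, h5⟩ | ⟨i, h3, h4, h5⟩
      · left
        exact Subtype.ext (by rw [e1, e2, h])
      all_goals
        right
        rw [present_iff (hτ.trans hTP), mem_snap, mem_snap, e1, e2]
      · refine ⟨?_, Or.inl (Or.inl ⟨h.1, h.2, by omega⟩)⟩
        refine comb_adj.2 (Or.inl ?_)
        rw [e1, e2]
        unfold par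
        split_ifs <;> omega
      · refine ⟨?_, Or.inr (Or.inl ⟨h.1, h.2, by omega⟩)⟩
        refine comb_adj.2 (Or.inr ?_)
        rw [e1, e2]
        unfold par
        split_ifs <;> omega
      · refine ⟨?_, Or.inl (Or.inr ⟨i, by omega, h5, Prod.ext h3 h4⟩)⟩
        refine comb_adj.2 (Or.inl ?_)
        rw [e1, e2]
        unfold par
        split_ifs <;> omega
      · refine ⟨?_, Or.inr (Or.inr ⟨i, by omega, h5, Prod.ext h4 h3⟩)⟩
        refine comb_adj.2 (Or.inr ?_)
        rw [e1, e2]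
        unfold par
        split_ifs <;> omega
    · obtain ⟨τ, hτ, h3⟩ := h2 v.1 (comb_lt v)
      exact ⟨τ, hτ, Subtype.ext (by rw [hqv τ hτ, h3])⟩

theorem exists_leafB {φ : F3} (hb : Bounded3 φ) (i : ℕ) (hi : i < 10 * φ.length) :
    ∃ τ < per φ, leafB φ τ i = true := by
  obtain ⟨m, hm⟩ : ∃ m, φ.length = m := ⟨_, rfl⟩
  rw [hm] at hi
  have key : ∀ R q, R < 6 * m → q < m + 3 → ∃ τ < per φ, reg m (slot m τ) = R ∧
      pl m (slot m τ) = q ∧ dl m τ = 0 := by
    intro R q hR hq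
    refine ⟨(10 * m + 3) * ((m + 3) * R + q) + 0, ?_, ?_⟩
    · have h3 : (m + 3) * R + q < 6 * m * (m + 3) := by
        rw [← reg_lt_iff, (reg_mk hq).1]
        exact hR
      unfold per
      rw [hm, Nat.add_zero, Nat.mul_comm]
      exact Nat.mul_lt_mul_of_pos_right h3 (by omega)
    · have h4 := slot_mk (m := m) (σ := (m + 3) * R + q) (k := 0) (by omega)
      rw [h4.1, (reg_mk hq).1, (reg_mk hq).2]
      exact ⟨rfl, rfl, h4.2⟩
  by_cases h1 : i < 3 * m
  · obtain ⟨τ, hτ, e1, e2, e3⟩ := key (2 * i) 0 (by omega) (by omega)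
    exact ⟨τ, hτ, leafB_var hm h1 (by omega) (Or.inl e2) e3⟩
  · by_cases h2 : i < 4 * m
    · obtain ⟨j, rfl⟩ : ∃ j, i = 3 * m + j := ⟨i - 3 * m, by omega⟩
      have hj : j < φ.length := by omega
      have hc : φ[j] ∈ φ := List.getElem_mem _
      have hbd := (hb _ hc).1
      rw [hm] at hbd
      have hl : litIn φ φ[j].1.2 φ[j].1.1 j = true := litIn_iff.2 ⟨hj, Or.inl rfl⟩
      obtain ⟨R, hR, hR1, hR2⟩ : ∃ R < 6 * m, R / 2 = φ[j].1.2 ∧
          decide (R % 2 = 1) = φ[j].1.1 := by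
        cases hb1 : φ[j].1.1
        · exact ⟨2 * φ[j].1.2, by omega, by omega, by rw [decide_eq_false_iff_not]; omega⟩
        · exact ⟨2 * φ[j].1.2 + 1, by omega, by omega, by rw [decide_eq_true_eq]; omega⟩
      obtain ⟨τ, hτ, e1, e2, e3⟩ := key R (j + 1) hR (by omega)
      refine ⟨τ, hτ, leafB_cl hm (by omega) (by omega) (by omega) (by omega) ?_⟩
      have e4 : 3 * m + j - 3 * m = j := by omega
      rw [e1, hR1, hR2, e4]
      exact hl
    · obtain ⟨τ, hτ, e1, e2, e3⟩ := key (i - 4 * m) (m + 2) (by omega) (by omega)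
      exact ⟨τ, hτ, leafB_rg hm (by omega) e2 (by omega)⟩

theorem inst_tree {φ : F3} (hb : Bounded3 φ) (hne : φ ≠ []) : IsPeriodicTree (inst φ) := by
  have hm0 : 0 < φ.length := List.length_pos_iff.2 hne
  have hper : 0 < per φ := lt_of_le_of_lt (Nat.zero_le _) (TT_lt hne)
  refine ⟨comb_isTree (by omega), by rw [per_eq]; exact hper, ?_, ?_, ?_⟩
  · intro S hS e he
    obtain ⟨τ, _, rfl⟩ := List.mem_map.1 hS
    rw [mem_snap] at he
    rcases he with h | ⟨i, h1, _, rfl⟩
    · refine ⟨List.mem_range.2 (by omega), List.mem_range.2 (by omega), comb_adj.2 (Or.inl ?_)⟩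
      simp only
      unfold par
      split_ifs <;> omega
    · refine ⟨List.mem_range.2 (by omega), List.mem_range.2 (by omega), comb_adj.2 (Or.inl ?_)⟩
      simp only
      unfold par
      split_ifs <;> omega
  · have key : ∀ u v : {v : ℕ // v ∈ (inst φ).1.1}, 0 < v.1 → u.1 = par v.1 →
        ∃ τ, τ < per φ ∧ (u.1, v.1) ∈ snap φ τ := by
      intro u v h1 h2
      have hv := comb_lt v
      unfold par at h2
      split_ifs at h2 with h3
      · obtain ⟨τ, hτ, h4⟩ := exists_leafB hb (v.1 / 2) (by omega)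
        exact ⟨τ, hτ, mem_snap.2 (Or.inr ⟨v.1 / 2, by omega, h4, Prod.ext (by simp only; omega)
          (by simp only; omega)⟩)⟩
      · exact ⟨0, hper, mem_snap.2 (Or.inl ⟨by simp only; omega, by simp only; omega, hv⟩)⟩
    intro u v huv
    rcases comb_adj.1 huv with h | h
    · obtain ⟨τ, hτ, h1⟩ := key u v h.1 h.2
      exact ⟨τ, (present_iff hτ _ _).2 (Or.inl h1)⟩
    · obtain ⟨τ, hτ, h1⟩ := key v u h.1 h.2
      exact ⟨τ, (present_iff hτ _ _).2 (Or.inr h1)⟩
  · exact List.mem_range.2 (show 0 < 2 * (10 * φ.length) by omega)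

theorem inst_deg (φ : F3) : MaxDegLE (inst φ) 3 := fun v => comb_deg v

/-! ### Running time -/

theorem len_poly : UPoly (fun φ : F3 => φ.length) := UPoly.length NPC.Poly.id

theorem per_poly : UPoly per :=
  UPoly.mul (UPoly.mul (UPoly.mul (UPoly.const 6) len_poly) (UPoly.add len_poly (UPoly.const 3)))
    (UPoly.add (UPoly.mul (UPoly.const 10) len_poly) (UPoly.const 3))

theorem spine_poly : NPC.Poly (fun φ : F3 => spineE (10 * φ.length)) := by
  have h : UPoly (fun φ : F3 => 10 * φ.length - 1) :=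
    UPoly.of_le (by fun_prop) (UPoly.mul (UPoly.const 10) len_poly) fun _ => Nat.sub_le _ _
  exact NPC.Poly.map (F := fun (_ : F3) (i : ℕ) => (2 * i, 2 * i + 2)) h.range (by fun_prop)

theorem comb_poly : NPC.Poly (fun φ : F3 => comb (10 * φ.length)) := by
  have h1 := spine_poly
  have h2 : NPC.Poly (fun φ : F3 => List.range (2 * (10 * φ.length))) :=
    (UPoly.mul (UPoly.const 2) (UPoly.mul (UPoly.const 10) len_poly)).range
  have h3 : NPC.Poly (fun φ : F3 => (List.range (10 * φ.length)).map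
      fun i => (2 * i, 2 * i + 1)) :=
    NPC.Poly.map (F := fun (_ : F3) (i : ℕ) => (2 * i, 2 * i + 1))
      (UPoly.mul (UPoly.const 10) len_poly).range (by fun_prop)
  exact NPC.Poly.pair h2 (NPC.Poly.append h1 h3)

theorem leafB_poly : NPC.Poly (fun p : F3 × ℕ × ℕ => leafB p.1 p.2.1 p.2.2) := by
  have h1 : NPC.Poly (fun p : F3 × ℕ × ℕ => reg p.1.length (slot p.1.length p.2.1)) := by
    unfold reg slot
    fun_prop
  have h2 : NPC.Poly (fun p : F3 × ℕ × ℕ => pl p.1.length (slot p.1.length p.2.1)) := by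
    unfold pl slot
    fun_prop
  have h3 : NPC.Poly (fun p : F3 × ℕ × ℕ => dl p.1.length p.2.1) := by
    unfold dl
    fun_prop
  have h4 : NPC.Poly (fun p : F3 × ℕ × ℕ => litIn p.1
      (reg p.1.length (slot p.1.length p.2.1) / 2)
      (decide (reg p.1.length (slot p.1.length p.2.1) % 2 = 1)) (p.2.2 - 3 * p.1.length)) :=
    litIn_poly (by fun_prop) (by fun_prop) (NPC.Poly.decide_eq (by fun_prop)
      (NPC.Poly.const 1)) (by fun_prop)
  unfold leafB
  exact NPC.Poly.or (NPC.Poly.or (by fun_prop) (NPC.Poly.and (by fun_prop) h4)) (by fun_prop)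

theorem inst_poly : NPC.Poly inst := by
  have h1 : NPC.Poly (fun p : F3 × ℕ => snap p.1 p.2) := by
    have h2 : NPC.Poly (fun p : F3 × ℕ => spineE (10 * p.1.length)) :=
      spine_poly.comp (f := fun p : F3 × ℕ => p.1) (by fun_prop)
    have h3 : NPC.Poly (fun p : F3 × ℕ => (List.range (10 * p.1.length)).filter
        fun i => leafB p.1 p.2 i) :=
      NPC.Poly.filter (p := fun (p : F3 × ℕ) (i : ℕ) => leafB p.1 p.2 i)
        (UPoly.mul (UPoly.const 10) (UPoly.comp len_poly (NPC.Poly.fst NPC.Poly.id))).range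
        (leafB_poly.comp (f := fun p : (F3 × ℕ) × ℕ => (p.1.1, p.1.2, p.2)) (by fun_prop))
    exact NPC.Poly.append h2 (NPC.Poly.map (F := fun (_ : F3 × ℕ) (i : ℕ) =>
      (2 * i, 2 * i + 1)) h3 (by fun_prop))
  exact NPC.Poly.pair comb_poly (NPC.Poly.pair
    (NPC.Poly.map (F := fun (φ : F3) (τ : ℕ) => snap φ τ) per_poly.range h1) (NPC.Poly.const 0))

theorem TT_poly : NPC.Poly TT := by
  unfold TT
  fun_prop

end Pool.Agent.Q227.TP
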