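import Pool.Agent.Q227.TP.Comb
import Pool.Agent.Q227.SI.Sat

/-!
# Coverage of periodic temporal combs and satisfiability
-/

set_option autoImplicit false

namespace Pool.Agent.Q227.TP

open Pool.Agent.NPC Pool.Agent.Q227.TF Pool.Agent.Q227.SI

/-! ### Time

There are `6 m` regions, one for every literal, with `m + 3` slots each; every slot has `10 m + 3`
time steps. -/

/-- The slot of a time. -/
def slot (m τ : ℕ) : ℕ := τ / (10 * m + 3)

/-- The time step in its slot. -/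
def dl (m τ : ℕ) : ℕ := τ % (10 * m + 3)

/-- The region of a slot. -/
def reg (m σ : ℕ) : ℕ := σ / (m + 3)

/-- The number of a slot in its region. -/
def pl (m σ : ℕ) : ℕ := σ % (m + 3)

/-- The edge of the leaf `i` is present at time `τ`. The leaves below `3 m` belong to the
variables, the next `m` leaves to the clauses, and the next `6 m` leaves to the regions. -/
def leafB (φ : F3) (τ i : ℕ) : Bool :=
  decide (i < 3 * φ.length ∧ reg φ.length (slot φ.length τ) / 2 = i ∧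
      (pl φ.length (slot φ.length τ) = 0 ∨ pl φ.length (slot φ.length τ) = φ.length + 1) ∧
      dl φ.length τ = 0) ||
  (decide (3 * φ.length ≤ i ∧ i < 4 * φ.length ∧
      pl φ.length (slot φ.length τ) + 3 * φ.length = i + 1 ∧ dl φ.length τ ≤ 1) &&
    litIn φ (reg φ.length (slot φ.length τ) / 2)
      (decide (reg φ.length (slot φ.length τ) % 2 = 1)) (i - 3 * φ.length)) ||
  decide (i = 4 * φ.length + reg φ.length (slot φ.length τ) ∧
      pl φ.length (slot φ.length τ) = φ.length + 2 ∧ dl φ.length τ ≤ 1)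

theorem leafB_iff {φ : F3} {τ i : ℕ} : leafB φ τ i = true ↔
    (i < 3 * φ.length ∧ reg φ.length (slot φ.length τ) / 2 = i ∧
      (pl φ.length (slot φ.length τ) = 0 ∨ pl φ.length (slot φ.length τ) = φ.length + 1) ∧
      dl φ.length τ = 0) ∨
    ((3 * φ.length ≤ i ∧ i < 4 * φ.length ∧
      pl φ.length (slot φ.length τ) + 3 * φ.length = i + 1 ∧ dl φ.length τ ≤ 1) ∧
      litIn φ (reg φ.length (slot φ.length τ) / 2)
        (decide (reg φ.length (slot φ.length τ) % 2 = 1)) (i - 3 * φ.length) = true) ∨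
    (i = 4 * φ.length + reg φ.length (slot φ.length τ) ∧
      pl φ.length (slot φ.length τ) = φ.length + 2 ∧ dl φ.length τ ≤ 1) := by
  unfold leafB
  simp only [Bool.or_eq_true, Bool.and_eq_true, decide_eq_true_eq, or_assoc]

/-- The agent may be at `a` at time `τ` and at `b` at time `τ + 1`. -/
def Step (φ : F3) (τ a b : ℕ) : Prop :=
  b = a ∨ (a % 2 = 0 ∧ b = a + 2) ∨ (b % 2 = 0 ∧ a = b + 2) ∨
    (∃ i, a = 2 * i ∧ b = 2 * i + 1 ∧ leafB φ τ i = true) ∨
    (∃ i, a = 2 * i + 1 ∧ b = 2 * i ∧ leafB φ τ i = true)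

/-- The deadline. -/
def TT (φ : F3) : ℕ := (6 * φ.length * (φ.length + 3) - 1) * (10 * φ.length + 3) + 1

/-- Coverage, in terms of numbers. -/
def CovN (φ : F3) : Prop :=
  ∃ pos : ℕ → ℕ, (∀ τ ≤ TT φ, pos τ < 2 * (10 * φ.length)) ∧ pos 0 = 0 ∧
    (∀ τ < TT φ, Step φ τ (pos τ) (pos (τ + 1))) ∧
    ∀ v < 2 * (10 * φ.length), ∃ τ ≤ TT φ, pos τ = v

/-! ### From coverage to satisfiability -/

section Sound

variable {φ : F3} {pos : ℕ → ℕ}

theorem enter (h0 : pos 0 = 0) (hs : ∀ τ < TT φ, Step φ τ (pos τ) (pos (τ + 1))) {i τ' : ℕ}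
    (hτ' : τ' ≤ TT φ) (h : pos τ' = 2 * i + 1) :
    ∃ τ < TT φ, pos τ = 2 * i ∧ pos (τ + 1) = 2 * i + 1 ∧ leafB φ τ i = true := by
  classical
  have hex : ∃ τ, pos τ = 2 * i + 1 := ⟨τ', h⟩
  set τ := Nat.find hex with hτ
  have h1 : pos τ = 2 * i + 1 := Nat.find_spec hex
  have h2 : τ ≤ τ' := Nat.find_min' hex h
  have h3 : τ ≠ 0 := by
    intro h3
    rw [h3, h0] at h1
    omega
  have h4 : pos (τ - 1) ≠ 2 * i + 1 := Nat.find_min hex (by omega)
  have h5 := hs (τ - 1) (by omega)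
  have h6 : τ - 1 + 1 = τ := by omega
  rw [h6, h1] at h5
  rcases h5 with h | h | h | ⟨j, h, h', h''⟩ | ⟨j, h, h', h''⟩
  · omega
  · omega
  · omega
  · have : j = i := by omega
    subst this
    exact ⟨τ - 1, by omega, h, by rw [h6]; exact h1, h''⟩
  · omega

theorem leave (hs : ∀ τ < TT φ, Step φ τ (pos τ) (pos (τ + 1))) {i τ₁ τ₂ : ℕ} (h12 : τ₁ ≤ τ₂)
    (hτ₂ : τ₂ ≤ TT φ) (h1 : pos τ₁ = 2 * i + 1) (h2 : pos τ₂ ≠ 2 * i + 1) :
    ∃ τ, τ₁ ≤ τ ∧ τ < τ₂ ∧ leafB φ τ i = true := by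
  classical
  have hex : ∃ k, pos (τ₁ + k) ≠ 2 * i + 1 := ⟨τ₂ - τ₁, by
    have : τ₁ + (τ₂ - τ₁) = τ₂ := by omega
    rw [this]
    exact h2⟩
  set k := Nat.find hex with hk
  have h3 : pos (τ₁ + k) ≠ 2 * i + 1 := Nat.find_spec hex
  have h4 : k ≤ τ₂ - τ₁ := Nat.find_min' hex (by
    have : τ₁ + (τ₂ - τ₁) = τ₂ := by omega
    rw [this]
    exact h2)
  have h5 : k ≠ 0 := by
    intro h5
    rw [h5, Nat.add_zero] at h3
    exact h3 h1
  have h6 : ¬ pos (τ₁ + (k - 1)) ≠ 2 * i + 1 := Nat.find_min hex (by omega)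
  push Not at h6
  have h7 := hs (τ₁ + (k - 1)) (by omega)
  have h8 : τ₁ + (k - 1) + 1 = τ₁ + k := by omega
  rw [h8, h6] at h7
  refine ⟨τ₁ + (k - 1), by omega, by omega, ?_⟩
  rcases h7 with h | h | h | ⟨j, h, h', h''⟩ | ⟨j, h, h', h''⟩
  · exact absurd h h3
  · omega
  · omega
  · omega
  · have : j = i := by omega
    subst this
    exact h''

theorem slot_mono (m : ℕ) {τ τ' : ℕ} (h : τ ≤ τ') : slot m τ ≤ slot m τ' :=
  Nat.div_le_div_right h

theorem reg_mono (m : ℕ) {σ σ' : ℕ} (h : σ ≤ σ') : reg m σ ≤ reg m σ' := Nat.div_le_div_right h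

theorem lt_of_slot_lt (m : ℕ) {τ τ' : ℕ} (h : slot m τ < slot m τ') : τ < τ' := by
  by_contra hlt
  exact absurd (slot_mono m (not_lt.1 hlt)) (by omega)

theorem slot_eq (m σ : ℕ) : (m + 3) * reg m σ + pl m σ = σ := Nat.div_add_mod _ _

theorem time_eq (m τ : ℕ) : (10 * m + 3) * slot m τ + dl m τ = τ := Nat.div_add_mod _ _

theorem slot_lt_of {m σ σ' : ℕ} (hr : reg m σ = reg m σ') (hp : pl m σ < pl m σ') : σ < σ' := by
  have h1 := slot_eq m σ
  have h2 := slot_eq m σ'
  rw [hr] at h1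
  omega

theorem pl_lt_of {m σ σ' : ℕ} (hr : reg m σ = reg m σ') (hp : σ < σ') : pl m σ < pl m σ' := by
  have h1 := slot_eq m σ
  have h2 := slot_eq m σ'
  rw [hr] at h1
  omega

theorem pl_le_of {m σ σ' : ℕ} (hr : reg m σ = reg m σ') (hp : σ ≤ σ') : pl m σ ≤ pl m σ' := by
  have h1 := slot_eq m σ
  have h2 := slot_eq m σ'
  rw [hr] at h1
  omega

theorem slot_lt_of_dl {m τ τ' : ℕ} (h : τ < τ') (h1 : dl m τ = 0) (h2 : dl m τ' = 0) :
    slot m τ < slot m τ' := by
  have h3 := time_eq m τ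
  have h4 := time_eq m τ'
  rcases lt_or_eq_of_le (slot_mono m h.le) with h5 | h5
  · exact h5
  · rw [h5] at h3
    omega

theorem sat_of_cov (hb : Bounded3 φ) (hcov : CovN φ) : SAT3 φ := by
  classical
  obtain ⟨pos, hlt, h0, hs, hc⟩ := hcov
  set m := φ.length with hm
  -- every leaf is entered
  have hent : ∀ i < 10 * m, ∃ τ < TT φ, pos τ = 2 * i ∧ pos (τ + 1) = 2 * i + 1 ∧
      leafB φ τ i = true := by
    intro i hi
    obtain ⟨τ', h1, h2⟩ := hc (2 * i + 1) (by omega)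
    exact enter h0 hs h1 h2
  -- the leaf of a variable is entered in the first slot of a region
  have hA : ∀ i < 3 * m, ∀ τ < TT φ, pos τ = 2 * i → pos (τ + 1) = 2 * i + 1 →
      leafB φ τ i = true → reg m (slot m τ) / 2 = i ∧ pl m (slot m τ) = 0 ∧ dl m τ = 0 := by
    intro i hi τ hτ h1 h2 h3
    have h3' := leafB_iff.1 h3
    simp only [← hm] at h3'
    have h4 : reg m (slot m τ) / 2 = i ∧ (pl m (slot m τ) = 0 ∨ pl m (slot m τ) = m + 1) ∧
        dl m τ = 0 := by
      rcases h3' with h | h | h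
      · exact ⟨h.2.1, h.2.2.1, h.2.2.2⟩
      · omega
      · omega
    obtain ⟨τ', hτ', h1', h2', h3''⟩ := hent (4 * m + reg m (slot m τ)) (by omega)
    have h5 := leafB_iff.1 h3''
    simp only [← hm] at h5
    have h6 : reg m (slot m τ') = reg m (slot m τ) ∧ pl m (slot m τ') = m + 2 := by
      rcases h5 with h | h | h
      · omega
      · omega
      · exact ⟨by omega, h.2.1⟩
    have h7 : slot m τ < slot m τ' := slot_lt_of h6.1.symm (by omega)
    have h8 := lt_of_slot_lt m h7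
    obtain ⟨τ₃, h9, h10, h11⟩ := leave hs (τ₁ := τ + 1) (τ₂ := τ') (i := i) (by omega)
      (by omega) h2 (by omega)
    have h12 := leafB_iff.1 h11
    simp only [← hm] at h12
    have h13 : (pl m (slot m τ₃) = 0 ∨ pl m (slot m τ₃) = m + 1) ∧ dl m τ₃ = 0 := by
      rcases h12 with h | h | h
      · exact ⟨h.2.2.1, h.2.2.2⟩
      · omega
      · omega
    have h14 := slot_lt_of_dl (m := m) (show τ < τ₃ by omega) h4.2.2 h13.2
    have h15 := reg_mono m h14.le
    have h16 := reg_mono m (slot_mono m h10.le)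
    have h17 := pl_lt_of (m := m) (show reg m (slot m τ) = reg m (slot m τ₃) by omega) h14
    exact ⟨h4.1, by omega, h4.2.2⟩
  -- no clause leaf is entered while the agent is in the leaf of the variable
  have hB : ∀ i < 3 * m, ∀ τ < TT φ, pos τ = 2 * i → pos (τ + 1) = 2 * i + 1 →
      leafB φ τ i = true → ∀ j < m, ∀ τ' < TT φ, pos τ' = 2 * (3 * m + j) →
      reg m (slot m τ') = reg m (slot m τ) → pl m (slot m τ') = j + 1 → False := by
    intro i hi τ hτ h1 h2 h3 j hj τ' hτ' h4 h5 h6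
    obtain ⟨h7, h8, h9⟩ := hA i hi τ hτ h1 h2 h3
    have h10 : slot m τ < slot m τ' := slot_lt_of h5.symm (by omega)
    have h11 := lt_of_slot_lt m h10
    obtain ⟨τ₃, h12, h13, h14⟩ := leave hs (τ₁ := τ + 1) (τ₂ := τ') (i := i) (by omega)
      (by omega) h2 (by omega)
    have h15 := leafB_iff.1 h14
    simp only [← hm] at h15
    have h16 : (pl m (slot m τ₃) = 0 ∨ pl m (slot m τ₃) = m + 1) ∧ dl m τ₃ = 0 := by
      rcases h15 with h | h | h
      · exact ⟨h.2.2.1, h.2.2.2⟩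
      · omega
      · omega
    have h17 := slot_lt_of_dl (m := m) (show τ < τ₃ by omega) h9 h16.2
    have h18 := reg_mono m h17.le
    have h19 := slot_mono m h13.le
    have h20 := reg_mono m h19
    have h21 := pl_lt_of (m := m) (show reg m (slot m τ) = reg m (slot m τ₃) by omega) h17
    have h22 := pl_le_of (m := m) (show reg m (slot m τ₃) = reg m (slot m τ') by omega) h19
    omega
  set α : ℕ → Bool := fun x => decide (∃ τ < TT φ, pos τ = 2 * x ∧ pos (τ + 1) = 2 * x + 1 ∧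
    leafB φ τ x = true ∧ reg m (slot m τ) = 2 * x) with hα
  refine ⟨α, fun c hc' => ?_⟩
  obtain ⟨j, hj, rfl⟩ := List.mem_iff_getElem.1 hc'
  have hj' : j < m := hj
  obtain ⟨τ, hτ, h1, h2, h3⟩ := hent (3 * m + j) (by omega)
  have h3' := leafB_iff.1 h3
  simp only [← hm] at h3'
  have h4 : pl m (slot m τ) = j + 1 ∧ litIn φ (reg m (slot m τ) / 2)
      (decide (reg m (slot m τ) % 2 = 1)) j = true := by
    rcases h3' with h | h | h
    · omega
    · refine ⟨by omega, ?_⟩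
      have : 3 * m + j - 3 * m = j := by omega
      rw [this] at h
      exact h.2
    · omega
  set x := reg m (slot m τ) / 2 with hx
  set b := decide (reg m (slot m τ) % 2 = 1) with hbb
  obtain ⟨_, h5⟩ := litIn_iff.1 h4.2
  have hx3 : x < 3 * m := by
    have := hb _ hc'
    rcases h5 with h | h | h <;> rw [h] at this
    · exact this.1
    · exact this.2.1
    · exact this.2.2
  have hαx : α x = b := by
    obtain ⟨τ₁, hτ₁, e1, e2, e3⟩ := hent x (by omega)
    have e4 := hA x hx3 τ₁ hτ₁ e1 e2 e3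
    have e5 : reg m (slot m τ) ≠ reg m (slot m τ₁) := fun h =>
      hB x hx3 τ₁ hτ₁ e1 e2 e3 j hj' τ hτ h1 h h4.1
    rcases Nat.mod_two_eq_zero_or_one (reg m (slot m τ)) with h6 | h6
    · have hb0 : b = false := by
        rw [hbb, decide_eq_false_iff_not]
        omega
      rw [hb0, hα, decide_eq_false_iff_not]
      rintro ⟨τ₂, hτ₂, f1, f2, f3, f4⟩
      exact hB x hx3 τ₂ hτ₂ f1 f2 f3 j hj' τ hτ h1 (by omega) h4.1
    · have hb1 : b = true := by
        rw [hbb, decide_eq_true_eq]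
        exact h6
      rw [hb1, hα, decide_eq_true_eq]
      exact ⟨τ₁, hτ₁, e1, e2, e3, by omega⟩
  rcases h5 with h | h | h
  · refine Or.inl ?_
    rw [h]
    exact hαx
  · refine Or.inr (Or.inl ?_)
    rw [h]
    exact hαx
  · refine Or.inr (Or.inr ?_)
    rw [h]
    exact hαx

end Sound

end Pool.Agent.Q227.TP
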