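import Pool.Agent.Q227.TP.Red

/-!
# Coverage of periodic temporal combs: the schedule of a satisfying assignment
-/

set_option autoImplicit false

namespace Pool.Agent.Q227.TP

open Pool.Agent.NPC Pool.Agent.Q227.TF Pool.Agent.Q227.SI

section

variable (m : ℕ) (α : ℕ → Bool) (ch : ℕ → ℕ)

/-- The leaf of the variable is visited in the region. -/
def ins (R : ℕ) : Prop := α (R / 2) = decide (R % 2 = 0)

instance : DecidablePred (ins α) := fun _ => inferInstanceAs (Decidable (_ = _))

/-- The position at the start of a slot. -/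
def ps (σ : ℕ) : ℕ :=
  if ins α (reg m σ) then
    (if pl m σ = 0 then 2 * (reg m σ / 2) else if pl m σ ≤ m + 1 then 2 * (reg m σ / 2) + 1
      else 2 * (4 * m + reg m σ))
  else (if pl m σ = m + 2 then 2 * (4 * m + reg m σ)
    else if pl m σ ≠ 0 ∧ pl m σ ≤ m ∧ ch (pl m σ - 1) = reg m σ then 2 * (3 * m + (pl m σ - 1)) else 0)

/-- The position one step later. -/
def pm (σ : ℕ) : ℕ :=
  if ins α (reg m σ) then
    (if pl m σ ≤ m then 2 * (reg m σ / 2) + 1 else if pl m σ = m + 1 then 2 * (reg m σ / 2)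
      else 2 * (4 * m + reg m σ) + 1)
  else (if pl m σ = m + 2 then 2 * (4 * m + reg m σ) + 1
    else if pl m σ ≠ 0 ∧ pl m σ ≤ m ∧ ch (pl m σ - 1) = reg m σ then 2 * (3 * m + (pl m σ - 1)) + 1 else 0)

/-- The position two steps later. -/
def px (σ : ℕ) : ℕ :=
  if ins α (reg m σ) then
    (if pl m σ ≤ m then 2 * (reg m σ / 2) + 1 else if pl m σ = m + 1 then 2 * (reg m σ / 2)
      else 2 * (4 * m + reg m σ))
  else (if pl m σ = m + 2 then 2 * (4 * m + reg m σ)
    else if pl m σ ≠ 0 ∧ pl m σ ≤ m ∧ ch (pl m σ - 1) = reg m σ then 2 * (3 * m + (pl m σ - 1)) else 0)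

/-- Walking along the spine. -/
def wk (a b k : ℕ) : ℕ := if a % 2 = 1 then a else if a ≤ b then min (a + 2 * k) b
  else max (a - 2 * k) b

/-- The schedule. -/
def sched (τ : ℕ) : ℕ :=
  if dl m τ = 0 then ps m α ch (slot m τ) else if dl m τ = 1 then pm m α ch (slot m τ)
  else wk (px m α ch (slot m τ)) (ps m α ch (slot m τ + 1)) (dl m τ - 2)

end

theorem time_succ (m τ : ℕ) :
    (dl m τ + 1 < 10 * m + 3 ∧ slot m (τ + 1) = slot m τ ∧ dl m (τ + 1) = dl m τ + 1) ∨
    (dl m τ + 1 = 10 * m + 3 ∧ slot m (τ + 1) = slot m τ + 1 ∧ dl m (τ + 1) = 0) := by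
  have h1 := time_eq m τ
  have h2 : dl m τ < 10 * m + 3 := Nat.mod_lt _ (by omega)
  rcases lt_or_eq_of_le (Nat.succ_le_of_lt h2) with h | h
  · left
    refine ⟨h, ?_⟩
    exact (Nat.div_mod_unique (by omega)).2 ⟨by rw [add_comm]; omega, h⟩
  · right
    refine ⟨h, (Nat.div_mod_unique (by omega)).2 ⟨?_, by omega⟩⟩
    rw [Nat.mul_add, Nat.mul_one]
    omega

theorem slot_succ (m σ : ℕ) :
    (pl m σ < m + 2 ∧ reg m (σ + 1) = reg m σ ∧ pl m (σ + 1) = pl m σ + 1) ∨
    (pl m σ = m + 2 ∧ reg m (σ + 1) = reg m σ + 1 ∧ pl m (σ + 1) = 0) := by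
  have h1 := slot_eq m σ
  have h2 : pl m σ < m + 3 := Nat.mod_lt _ (by omega)
  rcases lt_or_eq_of_le (Nat.le_of_lt_succ h2) with h | h
  · left
    refine ⟨h, ?_⟩
    exact (Nat.div_mod_unique (by omega)).2 ⟨by rw [add_comm]; omega, by omega⟩
  · right
    refine ⟨h, (Nat.div_mod_unique (by omega)).2 ⟨?_, by omega⟩⟩
    rw [Nat.mul_add, Nat.mul_one]
    omega

section

variable {φ : F3} {α : ℕ → Bool} {ch : ℕ → ℕ}

theorem link (m σ : ℕ) :
    (px m α ch σ % 2 = 1 → ps m α ch (σ + 1) = px m α ch σ) ∧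
    (px m α ch σ % 2 = 0 → ps m α ch (σ + 1) % 2 = 0) := by
  unfold px ps
  rcases slot_succ m σ with ⟨h1, h2, h3⟩ | ⟨h1, h2, h3⟩
  · rw [h2, h3]
    by_cases hi : ins α (reg m σ)
    · simp only [if_pos hi]
      constructor
      · intro h
        split_ifs at h ⊢ <;> first | omega | contradiction
      · intro h
        split_ifs at h ⊢ <;> first | omega | contradiction
    · simp only [if_neg hi]
      constructor
      · intro h
        split_ifs at h ⊢ <;> first | omega | contradiction
      · intro h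
        split_ifs at h ⊢ <;> first | omega | contradiction
  · rw [h2, h3]
    constructor
    · intro h
      exfalso
      split_ifs at h <;> omega
    · intro h
      split_ifs <;> omega

theorem bounds {m σ : ℕ} (hσ : reg m σ < 6 * m) :
    ps m α ch σ < 2 * (10 * m) ∧ pm m α ch σ < 2 * (10 * m) ∧ px m α ch σ < 2 * (10 * m) := by
  have h2 : pl m σ < m + 3 := Nat.mod_lt _ (by omega)
  unfold ps pm px
  refine ⟨?_, ?_, ?_⟩ <;> split_ifs <;> omega

theorem leafB_var {m τ i : ℕ} (hm : φ.length = m) (h1 : i < 3 * m) (h2 : reg m (slot m τ) / 2 = i)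
    (h3 : pl m (slot m τ) = 0 ∨ pl m (slot m τ) = m + 1) (h4 : dl m τ = 0) :
    leafB φ τ i = true := by
  subst hm
  exact leafB_iff.2 (Or.inl ⟨h1, h2, h3, h4⟩)

theorem leafB_cl {m τ i : ℕ} (hm : φ.length = m) (h1 : 3 * m ≤ i) (h2 : i < 4 * m)
    (h3 : pl m (slot m τ) + 3 * m = i + 1) (h4 : dl m τ ≤ 1)
    (h5 : litIn φ (reg m (slot m τ) / 2) (decide (reg m (slot m τ) % 2 = 1)) (i - 3 * m) = true) :
    leafB φ τ i = true := by
  subst hm
  exact leafB_iff.2 (Or.inr (Or.inl ⟨⟨h1, h2, h3, h4⟩, h5⟩))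

theorem leafB_rg {m τ i : ℕ} (hm : φ.length = m) (h1 : i = 4 * m + reg m (slot m τ))
    (h3 : pl m (slot m τ) = m + 2) (h4 : dl m τ ≤ 1) : leafB φ τ i = true := by
  subst hm
  exact leafB_iff.2 (Or.inr (Or.inr ⟨h1, h3, h4⟩))

theorem step_in {τ i : ℕ} (h : leafB φ τ i = true) : Step φ τ (2 * i) (2 * i + 1) :=
  Or.inr (Or.inr (Or.inr (Or.inl ⟨i, rfl, rfl, h⟩)))

theorem step_out {τ i : ℕ} (h : leafB φ τ i = true) : Step φ τ (2 * i + 1) (2 * i) :=
  Or.inr (Or.inr (Or.inr (Or.inr ⟨i, rfl, rfl, h⟩)))

theorem wk_zero (a b : ℕ) : wk a b 0 = a := by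
  unfold wk
  split_ifs <;> omega

theorem wk_step {τ a b k : ℕ} (h1 : a % 2 = 1 → b = a) (h2 : a % 2 = 0 → b % 2 = 0) :
    Step φ τ (wk a b k) (wk a b (k + 1)) := by
  unfold wk Step
  by_cases ha : a % 2 = 1
  · rw [if_pos ha, if_pos ha]
    exact Or.inl rfl
  · rw [if_neg ha, if_neg ha]
    have hb := h2 (by omega)
    by_cases hab : a ≤ b
    · rw [if_pos hab, if_pos hab]
      omega
    · rw [if_neg hab, if_neg hab]
      omega

theorem wk_end {m a b : ℕ} (h1 : a % 2 = 1 → b = a) (ha : a < 2 * (10 * m))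
    (hb : b < 2 * (10 * m)) : wk a b (10 * m) = b := by
  unfold wk
  by_cases ha' : a % 2 = 1
  · rw [if_pos ha', h1 ha']
  · rw [if_neg ha']
    split_ifs <;> omega

theorem wk_lt {m a b k : ℕ} (ha : a < 2 * (10 * m)) (hb : b < 2 * (10 * m)) :
    wk a b k < 2 * (10 * m) := by
  unfold wk
  split_ifs <;> omega

theorem sched_step {m : ℕ} (hm : φ.length = m) (hch : ∀ j < m, ch j < 6 * m ∧
      litIn φ (ch j / 2) (decide (ch j % 2 = 1)) j = true)
    {τ : ℕ} (hτ : reg m (slot m τ) < 6 * m)
    (hτ' : dl m τ ≠ 0 → reg m (slot m τ + 1) < 6 * m) :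
    Step φ τ (sched m α ch τ) (sched m α ch (τ + 1)) := by
  have hpl : pl m (slot m τ) < m + 3 := Nat.mod_lt _ (by omega)
  have hdl : dl m τ < 10 * m + 3 := Nat.mod_lt _ (by omega)
  have hm0 : 0 < m := by omega
  have hcl : pl m (slot m τ) ≠ 0 ∧ pl m (slot m τ) ≤ m ∧
      ch (pl m (slot m τ) - 1) = reg m (slot m τ) → dl m τ ≤ 1 →
      leafB φ τ (3 * m + (pl m (slot m τ) - 1)) = true := by
    intro h1 h2
    refine leafB_cl hm (by omega) (by omega) (by omega) h2 ?_
    have h7 := (hch (pl m (slot m τ) - 1) (by omega)).2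
    rw [h1.2.2] at h7
    have h8 : 3 * m + (pl m (slot m τ) - 1) - 3 * m = pl m (slot m τ) - 1 := by omega
    rw [h8]
    exact h7
  obtain ⟨l1, l2⟩ := link (α := α) (ch := ch) m (slot m τ)
  rcases time_succ m τ with ⟨h1, h2, h3⟩ | ⟨h1, h2, h3⟩
  · by_cases hd0 : dl m τ = 0
    · have e1 : sched m α ch τ = ps m α ch (slot m τ) := by
        unfold sched
        rw [if_pos hd0]
      have e2 : sched m α ch (τ + 1) = pm m α ch (slot m τ) := by
        unfold sched
        rw [h2, h3, hd0]
        simp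
      rw [e1, e2]
      unfold ps pm
      by_cases hi : ins α (reg m (slot m τ))
      · simp only [if_pos hi]
        by_cases h4 : pl m (slot m τ) = 0
        · rw [if_pos h4, if_pos (by omega)]
          exact step_in (leafB_var hm (by omega) rfl (Or.inl h4) hd0)
        · rw [if_neg h4]
          by_cases h5 : pl m (slot m τ) ≤ m
          · rw [if_pos (by omega), if_pos h5]
            exact Or.inl rfl
          · by_cases h6 : pl m (slot m τ) = m + 1
            · rw [if_pos (by omega), if_neg h5, if_pos h6]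
              exact step_out (leafB_var hm (by omega) rfl (Or.inr h6) hd0)
            · rw [if_neg (by omega), if_neg h5, if_neg h6]
              exact step_in (leafB_rg hm rfl (by omega) (by omega))
      · simp only [if_neg hi]
        by_cases h4 : pl m (slot m τ) = m + 2
        · rw [if_pos h4, if_pos h4]
          exact step_in (leafB_rg hm rfl h4 (by omega))
        · rw [if_neg h4, if_neg h4]
          split_ifs with h5
          · exact step_in (hcl h5 (by omega))
          · exact Or.inl rfl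
    · by_cases hd1 : dl m τ = 1
      · have e1 : sched m α ch τ = pm m α ch (slot m τ) := by
          unfold sched
          rw [if_neg hd0, if_pos hd1]
        have e2 : sched m α ch (τ + 1) = px m α ch (slot m τ) := by
          unfold sched
          rw [h2, h3, hd1, if_neg (by omega), if_neg (by omega), wk_zero]
        rw [e1, e2]
        unfold px pm
        by_cases hi : ins α (reg m (slot m τ))
        · simp only [if_pos hi]
          by_cases h5 : pl m (slot m τ) ≤ m
          · rw [if_pos h5, if_pos h5]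
            exact Or.inl rfl
          · rw [if_neg h5, if_neg h5]
            by_cases h6 : pl m (slot m τ) = m + 1
            · rw [if_pos h6, if_pos h6]
              exact Or.inl rfl
            · rw [if_neg h6, if_neg h6]
              exact step_out (leafB_rg hm rfl (by omega) (by omega))
        · simp only [if_neg hi]
          by_cases h4 : pl m (slot m τ) = m + 2
          · rw [if_pos h4, if_pos h4]
            exact step_out (leafB_rg hm rfl h4 (by omega))
          · rw [if_neg h4, if_neg h4]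
            split_ifs with h5
            · exact step_out (hcl h5 (by omega))
            · exact Or.inl rfl
      · have e1 : sched m α ch τ = wk (px m α ch (slot m τ)) (ps m α ch (slot m τ + 1))
            (dl m τ - 2) := by
          unfold sched
          rw [if_neg hd0, if_neg hd1]
        have e2 : sched m α ch (τ + 1) = wk (px m α ch (slot m τ)) (ps m α ch (slot m τ + 1))
            (dl m τ - 2 + 1) := by
          unfold sched
          rw [h2, h3, if_neg (by omega), if_neg (by omega)]
          congr 1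
          omega
        rw [e1, e2]
        exact wk_step l1 l2
  · have e1 : sched m α ch τ = wk (px m α ch (slot m τ)) (ps m α ch (slot m τ + 1))
        (10 * m) := by
      unfold sched
      rw [if_neg (by omega), if_neg (by omega)]
      congr 1
      omega
    have e2 : sched m α ch (τ + 1) = ps m α ch (slot m τ + 1) := by
      unfold sched
      rw [if_pos h3, h2]
    have b1 := (bounds (α := α) (ch := ch) hτ).2.2
    have b2 := (bounds (α := α) (ch := ch) (hτ' (by omega))).1
    rw [e1, e2, wk_end l1 b1 b2]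
    exact Or.inl rfl

theorem sched_lt {m τ : ℕ} (hτ : reg m (slot m τ) < 6 * m)
    (hτ' : dl m τ ≠ 0 → dl m τ ≠ 1 → reg m (slot m τ + 1) < 6 * m) :
    sched m α ch τ < 2 * (10 * m) := by
  unfold sched
  have b := bounds (α := α) (ch := ch) hτ
  split_ifs with h1 h2
  · exact b.1
  · exact b.2.1
  · exact wk_lt b.2.2 (bounds (hτ' h1 h2)).1

theorem reg_lt_iff {m σ : ℕ} : reg m σ < 6 * m ↔ σ < 6 * m * (m + 3) :=
  Nat.div_lt_iff_lt_mul (by omega)

theorem slot_mk {m σ k : ℕ} (hk : k < 10 * m + 3) :
    slot m ((10 * m + 3) * σ + k) = σ ∧ dl m ((10 * m + 3) * σ + k) = k :=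
  (Nat.div_mod_unique (by omega)).2 ⟨add_comm _ _, hk⟩

theorem reg_mk {m R q : ℕ} (hq : q < m + 3) :
    reg m ((m + 3) * R + q) = R ∧ pl m ((m + 3) * R + q) = q :=
  (Nat.div_mod_unique (by omega)).2 ⟨add_comm _ _, hq⟩

theorem cov_of_sat (hb : Bounded3 φ) (hne : φ ≠ []) (h : SAT3 φ) : CovN φ := by
  classical
  obtain ⟨α, hα⟩ := h
  obtain ⟨m, hm⟩ : ∃ m, φ.length = m := ⟨_, rfl⟩
  have hm0 : 0 < m := by
    rw [← hm]
    exact List.length_pos_iff.2 hne
  -- the regions chosen for the clauses
  have hex : ∀ j, ∃ R, j < m → R < 6 * m ∧ litIn φ (R / 2) (decide (R % 2 = 1)) j = true ∧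
      α (R / 2) = decide (R % 2 = 1) := by
    intro j
    by_cases hj : j < m
    · have hj' : j < φ.length := by omega
      have hc : φ[j] ∈ φ := List.getElem_mem _
      have key : ∀ b x, x < 3 * m → litIn φ x b j = true → α x = b →
          ∃ R, R < 6 * m ∧ litIn φ (R / 2) (decide (R % 2 = 1)) j = true ∧
            α (R / 2) = decide (R % 2 = 1) := by
        intro b x hx h1 h2
        cases b
        · refine ⟨2 * x, by omega, ?_⟩
          have e1 : 2 * x / 2 = x := by omega
          have e2 : decide (2 * x % 2 = 1) = false := by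
            rw [decide_eq_false_iff_not]
            omega
          rw [e1, e2]
          exact ⟨h1, h2⟩
        · refine ⟨2 * x + 1, by omega, ?_⟩
          have e1 : (2 * x + 1) / 2 = x := by omega
          have e2 : decide ((2 * x + 1) % 2 = 1) = true := by
            rw [decide_eq_true_eq]
            omega
          rw [e1, e2]
          exact ⟨h1, h2⟩
      have hbd := hb _ hc
      rw [hm] at hbd
      rcases hα _ hc with h | h | h
      · obtain ⟨R, hR⟩ := key _ _ hbd.1 (litIn_iff.2 ⟨hj', Or.inl rfl⟩) h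
        exact ⟨R, fun _ => hR⟩
      · obtain ⟨R, hR⟩ := key _ _ hbd.2.1 (litIn_iff.2 ⟨hj', Or.inr (Or.inl rfl)⟩) h
        exact ⟨R, fun _ => hR⟩
      · obtain ⟨R, hR⟩ := key _ _ hbd.2.2 (litIn_iff.2 ⟨hj', Or.inr (Or.inr rfl)⟩) h
        exact ⟨R, fun _ => hR⟩
    · exact ⟨0, fun h => absurd h hj⟩
  choose ch hch using hex
  have hTT : TT φ = (10 * m + 3) * (6 * m * (m + 3) - 1) + 1 := by
    unfold TT
    rw [hm, Nat.mul_comm (10 * m + 3)]
  have hMpos : 0 < 6 * m * (m + 3) := by positivity
  -- the slots before the deadline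
  have hslot : ∀ τ ≤ TT φ, slot m τ < 6 * m * (m + 3) ∧
      (dl m τ ≠ 0 → dl m τ ≠ 1 → slot m τ + 1 < 6 * m * (m + 3)) ∧
      (τ < TT φ → dl m τ ≠ 0 → slot m τ + 1 < 6 * m * (m + 3)) := by
    intro τ hτ
    have h1 := time_eq m τ
    rw [hTT] at hτ
    have h2 : slot m τ < 6 * m * (m + 3) := by
      by_contra hlt
      push Not at hlt
      have h3 := Nat.mul_le_mul_left (10 * m + 3) hlt
      have h4 : (10 * m + 3) * (6 * m * (m + 3)) =
          (10 * m + 3) * (6 * m * (m + 3) - 1) + (10 * m + 3) := by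
        obtain ⟨M, hM⟩ : ∃ M, 6 * m * (m + 3) = M + 1 := ⟨6 * m * (m + 3) - 1, by omega⟩
        rw [hM, Nat.add_sub_cancel]
        ring
      omega
    have h5 : slot m τ + 1 < 6 * m * (m + 3) ∨ slot m τ = 6 * m * (m + 3) - 1 := by omega
    refine ⟨h2, fun h3 h4 => ?_, fun h3 h4 => ?_⟩
    · rcases h5 with h5 | h5
      · exact h5
      · rw [h5] at h1
        omega
    · rcases h5 with h5 | h5
      · exact h5
      · rw [hTT] at h3
        rw [h5] at h1
        omega
  refine ⟨sched m α ch, ?_, ?_, ?_, ?_⟩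
  · intro τ hτ
    obtain ⟨h1, h2, _⟩ := hslot τ hτ
    rw [hm]
    exact sched_lt (reg_lt_iff.2 h1) fun h3 h4 => reg_lt_iff.2 (h2 h3 h4)
  · have h1 := slot_mk (m := m) (σ := 0) (k := 0) (by omega)
    rw [Nat.mul_zero, Nat.add_zero] at h1
    have h2 := reg_mk (m := m) (R := 0) (q := 0) (by omega)
    rw [Nat.mul_zero, Nat.add_zero] at h2
    unfold sched ps
    rw [if_pos h1.2, h1.1, h2.1, h2.2]
    simp
  · intro τ hτ
    obtain ⟨h1, _, h3⟩ := hslot τ hτ.le
    exact sched_step hm (fun j hj => ⟨(hch j hj).1, (hch j hj).2.1⟩) (reg_lt_iff.2 h1)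
      fun h4 => reg_lt_iff.2 (h3 hτ h4)
  · -- coverage
    rw [hm]
    have key : ∀ i < 10 * m, ∃ R q, R < 6 * m ∧ q < m + 3 ∧
        ps m α ch ((m + 3) * R + q) = 2 * i ∧ pm m α ch ((m + 3) * R + q) = 2 * i + 1 := by
      intro i hi
      by_cases h1 : i < 3 * m
      · -- a variable
        refine ⟨2 * i + (if α i = true then 0 else 1), 0, by split_ifs <;> omega, by omega, ?_⟩
        set R := 2 * i + (if α i = true then 0 else 1) with hR
        have hR2 : R / 2 = i := by
          rw [hR]
          split_ifs <;> omega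
        have hins : ins α R := by
          unfold ins
          rw [hR2]
          cases hαi : α i
          · have : R = 2 * i + 1 := by rw [hR, hαi]; simp
            rw [this, eq_comm, decide_eq_false_iff_not]
            omega
          · have : R = 2 * i := by rw [hR, hαi]; simp
            rw [this, eq_comm, decide_eq_true_eq]
            omega
        have h2 := reg_mk (m := m) (R := R) (q := 0) (by omega)
        unfold ps pm
        rw [h2.1, h2.2, if_pos hins, if_pos hins, if_pos rfl, if_pos (Nat.zero_le _), hR2]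
        exact ⟨rfl, rfl⟩
      · by_cases h2 : i < 4 * m
        · -- a clause
          obtain ⟨j, rfl⟩ : ∃ j, i = 3 * m + j := ⟨i - 3 * m, by omega⟩
          have hj : j < m := by omega
          obtain ⟨c1, c2, c3⟩ := hch j hj
          have hins : ¬ ins α (ch j) := by
            unfold ins
            rw [c3]
            intro h
            rw [decide_eq_decide] at h
            omega
          refine ⟨ch j, j + 1, c1, by omega, ?_⟩
          have h3 := reg_mk (m := m) (R := ch j) (q := j + 1) (by omega)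
          unfold ps pm
          have h4 : j + 1 ≠ 0 ∧ j + 1 ≤ m ∧ ch (j + 1 - 1) = ch j := ⟨by omega, by omega, rfl⟩
          rw [h3.1, h3.2, if_neg hins, if_neg hins, if_neg (by omega), if_pos h4,
            if_neg (by omega), if_pos h4]
          exact ⟨rfl, rfl⟩
        · -- a region
          obtain ⟨R, rfl⟩ : ∃ R, i = 4 * m + R := ⟨i - 4 * m, by omega⟩
          refine ⟨R, m + 2, by omega, by omega, ?_⟩
          have h3 := reg_mk (m := m) (R := R) (q := m + 2) (by omega)
          unfold ps pm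
          rw [h3.1, h3.2]
          by_cases hins : ins α R
          · rw [if_pos hins, if_pos hins, if_neg (by omega), if_neg (by omega),
              if_neg (by omega), if_neg (by omega)]
            exact ⟨rfl, rfl⟩
          · rw [if_neg hins, if_neg hins, if_pos rfl, if_pos rfl]
            exact ⟨rfl, rfl⟩
    intro v hv
    obtain ⟨R, q, hR, hq, h1, h2⟩ := key (v / 2) (by omega)
    set σ := (m + 3) * R + q with hσ
    have hσM : σ ≤ 6 * m * (m + 3) - 1 := by
      have h3 : σ < 6 * m * (m + 3) := by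
        rw [← reg_lt_iff, (reg_mk hq).1]
        exact hR
      omega
    have hle := Nat.mul_le_mul_left (10 * m + 3) hσM
    rcases Nat.mod_two_eq_zero_or_one v with h3 | h3
    · refine ⟨(10 * m + 3) * σ + 0, by omega, ?_⟩
      have h4 := slot_mk (m := m) (σ := σ) (k := 0) (by omega)
      unfold sched
      rw [if_pos h4.2, h4.1, h1]
      omega
    · refine ⟨(10 * m + 3) * σ + 1, by omega, ?_⟩
      have h4 := slot_mk (m := m) (σ := σ) (k := 1) (by omega)
      unfold sched
      rw [if_neg (by omega), if_pos h4.2, h4.1, h2]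
      omega

end

end Pool.Agent.Q227.TP
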